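import Pool.Agent.H173Z.Canc.Final

set_option autoImplicit false

namespace Pool.Agent.Results.MP_28492a_gt.ACancel

open Pool.Agent.H173Z.Canc

/-- The cancellation law for equidecomposability of geometric bodies holds in every `ℝⁿ`, `n ≥ 1`:
if a join `C` of `k ≥ 1` disjoint isometric copies of `A` is equidecomposable with a join `D` of `k` disjoint
isometric copies of `B`, then `A` is equidecomposable with `B`. -/
theorem result : ∀ n : ℕ, 1 ≤ n → ∀ k : ℕ, 1 ≤ k →
    ∀ A B C D : Set (EuclideanSpace ℝ (Fin n)), Body A → Body B →
      IsMultiple k A C → IsMultiple k B D → Equidec C D → Equidec A B :=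
  fun _ hn _ hk _ _ _ _ hA hB hC hD h => cancellation hn hk hA hB hC hD h

end Pool.Agent.Results.MP_28492a_gt.ACancel
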